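import Mathlib

set_option autoImplicit false

/-!
# Decision trees with linear tests, and systems with entries `0`, `1`, `-1`
-/

namespace Pool.Agent.R533.AT

/-- Decision trees with the inputs `σ` whose tests are the signs of linear functions of the
inputs. -/
inductive LTree (σ : Type) : Type
  | leaf (answer : Bool) : LTree σ
  | node (c : ℝ) (a : σ → ℝ) (next : SignType → LTree σ) : LTree σ

/-- The answer of the tree on the input `x`; a node asks for the sign of `c + ∑ j, a j * x j`. -/
noncomputable def LTree.eval {σ : Type} [Fintype σ] : LTree σ → (σ → ℝ) → Bool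
  | leaf b, _ => b
  | node c a next, x => (next (SignType.sign (c + ∑ j, a j * x j))).eval x

/-- The numbers of the system `A x ≥ b` as a family. -/
def join {m n : ℕ} (A : Matrix (Fin m) (Fin n) ℝ) (b : Fin m → ℝ) :
    (Fin m × Fin n) ⊕ Fin m → ℝ := Sum.elim (fun p => A p.1 p.2) b

/-! ### Elimination of variables -/

theorem elim_one {ι : Type} [Fintype ι] (c g : ι → ℝ) :
    (∃ t : ℝ, ∀ i, g i ≤ c i * t) ↔ (∀ i, c i = 0 → g i ≤ 0) ∧
      ∀ p q, 0 < c p → c q < 0 → -c q * g p + c p * g q ≤ 0 := by
  classical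
  constructor
  · rintro ⟨t, ht⟩
    refine ⟨fun i hi => by simpa [hi] using ht i, fun p q hp hq => ?_⟩
    have h1 := ht p
    have h2 := ht q
    nlinarith
  · rintro ⟨h0, h⟩
    have key : ∀ t : ℝ, (∀ p, 0 < c p → g p / c p ≤ t) → (∀ q, c q < 0 → t ≤ g q / c q) →
        ∀ i, g i ≤ c i * t := by
      intro t h1 h2 i
      rcases lt_trichotomy (c i) 0 with hi | hi | hi
      · have := h2 i hi
        rw [le_div_iff_of_neg hi] at this
        linarith
      · rw [hi, zero_mul]; exact h0 i hi
      · have := h1 i hi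
        rw [div_le_iff₀ hi] at this
        linarith
    by_cases hP : (Finset.univ.filter fun p => 0 < c p).Nonempty
    · refine ⟨(Finset.univ.filter fun p => 0 < c p).sup' hP fun p => g p / c p,
        key _ (fun p hp => ?_) fun q hq => ?_⟩
      · exact Finset.le_sup' (fun p => g p / c p) (Finset.mem_filter.mpr ⟨Finset.mem_univ _, hp⟩)
      · refine Finset.sup'_le _ _ fun p hp => ?_
        have hp := (Finset.mem_filter.mp hp).2
        rw [le_div_iff_of_neg hq, div_mul_eq_mul_div, le_div_iff₀ hp]
        have := h p q hp hq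
        linarith
    · by_cases hQ : (Finset.univ.filter fun q => c q < 0).Nonempty
      · refine ⟨(Finset.univ.filter fun q => c q < 0).inf' hQ fun q => g q / c q,
          key _ (fun p hp => ?_) fun q hq => ?_⟩
        · exact absurd ⟨p, Finset.mem_filter.mpr ⟨Finset.mem_univ _, hp⟩⟩ hP
        · exact Finset.inf'_le (fun q => g q / c q)
            (Finset.mem_filter.mpr ⟨Finset.mem_univ _, hq⟩)
      · refine ⟨0, key _ (fun p hp => ?_) fun q hq => ?_⟩
        · exact absurd ⟨p, Finset.mem_filter.mpr ⟨Finset.mem_univ _, hp⟩⟩ hP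
        · exact absurd ⟨q, Finset.mem_filter.mpr ⟨Finset.mem_univ _, hq⟩⟩ hQ

/-- For a fixed matrix, solvability is a finite conjunction of linear inequalities for the right-hand
side. -/
theorem exists_tests : ∀ (n : ℕ) (ι : Type) [Fintype ι] (A : ι → Fin n → ℝ),
    ∃ (κ : Type) (_ : Fintype κ) (Y : κ → ι → ℝ), ∀ b : ι → ℝ,
      (∃ x : Fin n → ℝ, ∀ i, b i ≤ ∑ j, A i j * x j) ↔ ∀ k, ∑ i, Y k i * b i ≤ 0 := by
  classical
  intro n
  induction n with
  | zero =>
    intro ι _ A
    refine ⟨ι, inferInstance, fun k => Pi.single k 1, fun b => ?_⟩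
    have h : ∀ k : ι, ∑ i, (Pi.single k (1 : ℝ) : ι → ℝ) i * b i = b k := by
      intro k
      rw [Finset.sum_eq_single k (fun i _ hi => by rw [Pi.single_eq_of_ne hi, zero_mul])
        (fun h => absurd (Finset.mem_univ _) h), Pi.single_eq_same, one_mul]
    simp only [h]
    simp
  | succ n ih =>
    intro ι _ A
    let w : ι ⊕ (ι × ι) → ι → ℝ := Sum.elim
      (fun i => if A i 0 = 0 then Pi.single i 1 else 0)
      (fun p => if 0 < A p.1 0 ∧ A p.2 0 < 0 then
        (-A p.2 0) • Pi.single p.1 1 + (A p.1 0) • Pi.single p.2 1 else 0)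
    obtain ⟨κ, hκ, Y, hY⟩ := ih (ι ⊕ (ι × ι)) (fun k j => ∑ i, w k i * A i j.succ)
    refine ⟨κ, hκ, fun k i => ∑ k', Y k k' * w k' i, fun b => ?_⟩
    have hs : ∀ (k : ι) (g : ι → ℝ), ∑ i, (Pi.single k (1 : ℝ) : ι → ℝ) i * g i = g k := by
      intro k g
      rw [Finset.sum_eq_single k (fun i _ hi => by rw [Pi.single_eq_of_ne hi, zero_mul])
        (fun h => absurd (Finset.mem_univ _) h), Pi.single_eq_same, one_mul]
    have hw1 : ∀ (i : ι) (g : ι → ℝ), ∑ i', w (Sum.inl i) i' * g i' =
        if A i 0 = 0 then g i else 0 := by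
      intro i g
      simp only [w, Sum.elim_inl]
      by_cases h : A i 0 = 0
      · rw [if_pos h, if_pos h, hs]
      · rw [if_neg h, if_neg h]
        simp
    have hw2 : ∀ (p q : ι) (g : ι → ℝ), ∑ i', w (Sum.inr (p, q)) i' * g i' =
        if 0 < A p 0 ∧ A q 0 < 0 then -A q 0 * g p + A p 0 * g q else 0 := by
      intro p q g
      simp only [w, Sum.elim_inr]
      by_cases h : 0 < A p 0 ∧ A q 0 < 0
      · rw [if_pos h, if_pos h]
        simp only [Pi.add_apply, Pi.smul_apply, smul_eq_mul, add_mul, mul_assoc]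
        rw [Finset.sum_add_distrib, ← Finset.mul_sum, ← Finset.mul_sum, hs, hs]
      · rw [if_neg h, if_neg h]
        simp
    have h1 : (∃ x : Fin (n + 1) → ℝ, ∀ i, b i ≤ ∑ j, A i j * x j) ↔
        ∃ x' : Fin n → ℝ, ∀ k, ∑ i, w k i * b i ≤ ∑ j, (∑ i, w k i * A i j.succ) * x' j := by
      have hsum : ∀ (x' : Fin n → ℝ) (k), (∑ i, w k i * b i ≤
          ∑ j, (∑ i, w k i * A i j.succ) * x' j) ↔
          ∑ i, w k i * (b i - ∑ j : Fin n, A i j.succ * x' j) ≤ 0 := by
        intro x' k
        have e : ∑ j, (∑ i, w k i * A i j.succ) * x' j =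
            ∑ i, w k i * ∑ j : Fin n, A i j.succ * x' j := by
          simp only [Finset.sum_mul, Finset.mul_sum]
          rw [Finset.sum_comm]
          exact Finset.sum_congr rfl fun i _ => Finset.sum_congr rfl fun j _ => by ring
        rw [e]
        simp only [mul_sub]
        rw [Finset.sum_sub_distrib]
        constructor <;> intro h <;> linarith
      have hx : ∀ x' : Fin n → ℝ, (∃ t : ℝ, ∀ i, b i - ∑ j : Fin n, A i j.succ * x' j ≤
          A i 0 * t) ↔ ∀ k, ∑ i, w k i * b i ≤ ∑ j, (∑ i, w k i * A i j.succ) * x' j := by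
        intro x'
        rw [elim_one]
        simp only [hsum]
        constructor
        · rintro ⟨g1, g2⟩ (i | ⟨p, q⟩)
          · rw [hw1]
            split_ifs with h
            · exact g1 i h
            · exact le_rfl
          · rw [hw2]
            split_ifs with h
            · exact g2 p q h.1 h.2
            · exact le_rfl
        · intro g
          refine ⟨fun i hi => ?_, fun p q hp hq => ?_⟩
          · have := g (Sum.inl i)
            rw [hw1, if_pos hi] at this
            exact this
          · have := g (Sum.inr (p, q))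
            rw [hw2, if_pos ⟨hp, hq⟩] at this
            exact this
      constructor
      · rintro ⟨x, h⟩
        refine ⟨fun j => x j.succ, (hx _).mp ⟨x 0, fun i => ?_⟩⟩
        have := h i
        rw [Fin.sum_univ_succ] at this
        linarith
      · rintro ⟨x', h⟩
        obtain ⟨t, ht⟩ := (hx x').mpr h
        refine ⟨Fin.cons t x', fun i => ?_⟩
        rw [Fin.sum_univ_succ]
        simp only [Fin.cons_zero, Fin.cons_succ]
        have := ht i
        linarith
    rw [h1, hY]
    refine forall_congr' fun k => ?_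
    have e : ∑ k', Y k k' * ∑ i, w k' i * b i = ∑ i, (∑ k', Y k k' * w k' i) * b i := by
      simp only [Finset.sum_mul, Finset.mul_sum]
      rw [Finset.sum_comm]
      exact Finset.sum_congr rfl fun i _ => Finset.sum_congr rfl fun j _ => by ring
    rw [e]

/-! ### The tree -/

section tree
variable {σ : Type} [Fintype σ] [DecidableEq σ]

/-- The tree which tests whether all linear functions of a list are nonpositive. -/
noncomputable def nonpos : List (σ → ℝ) → LTree σ
  | [] => LTree.leaf true
  | a :: l => LTree.node 0 a fun s => if s = 1 then LTree.leaf false else nonpos l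

theorem nonpos_eval (l : List (σ → ℝ)) (x : σ → ℝ) :
    (nonpos l).eval x = true ↔ ∀ a ∈ l, ∑ j, a j * x j ≤ 0 := by
  induction l with
  | nil => simp [nonpos, LTree.eval]
  | cons a l ih =>
    simp only [nonpos, LTree.eval, zero_add, List.mem_cons, forall_eq_or_imp]
    by_cases h : 0 < ∑ j, a j * x j
    · rw [if_pos (sign_pos h)]
      simp only [LTree.eval]
      constructor
      · intro h'; simp at h'
      · intro h'; exact absurd h'.1 (not_le.mpr h)
    · rw [if_neg (fun h' => h (sign_eq_one_iff.mp h')), ih]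
      constructor
      · intro h'; exact ⟨not_lt.mp h, h'⟩
      · intro h'; exact h'.2

/-- The tree which reads the signs of some inputs. -/
noncomputable def readS : List σ → (σ → SignType) → ((σ → SignType) → LTree σ) → LTree σ
  | [], g, G => G g
  | p :: ps, g, G => LTree.node 0 (Pi.single p 1) fun s => readS ps (Function.update g p s) G

theorem readS_eval (G : (σ → SignType) → LTree σ) (x : σ → ℝ) : ∀ (ps : List σ)
    (g : σ → SignType), (readS ps g G).eval x =
      (G (fun p => if p ∈ ps then SignType.sign (x p) else g p)).eval x := by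
  intro ps
  induction ps with
  | nil => intro g; simp [readS]
  | cons p ps ih =>
    intro g
    simp only [readS, LTree.eval, zero_add]
    have e : ∑ j, (Pi.single p (1 : ℝ) : σ → ℝ) j * x j = x p := by
      rw [Finset.sum_eq_single p (fun i _ hi => by rw [Pi.single_eq_of_ne hi, zero_mul])
        (fun h => absurd (Finset.mem_univ _) h), Pi.single_eq_same, one_mul]
    rw [e, ih]
    congr 2
    funext r
    by_cases hr : r ∈ ps
    · rw [if_pos hr, if_pos (List.mem_cons_of_mem _ hr)]
    · rw [if_neg hr]
      by_cases hp : r = p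
      · subst hp
        rw [Function.update_self, if_pos List.mem_cons_self]
      · rw [Function.update_of_ne hp, if_neg (by simp [hp, hr])]

end tree

/-- **Systems with entries `0`, `1`, `-1` are decided by a tree with linear tests.** -/
theorem linear_tree (m n : ℕ) : ∃ t : LTree ((Fin m × Fin n) ⊕ Fin m),
    ∀ (A : Matrix (Fin m) (Fin n) ℝ) (b : Fin m → ℝ),
      (∀ i j, A i j = 0 ∨ A i j = 1 ∨ A i j = -1) →
      (t.eval (join A b) = true ↔ ∃ x : Fin n → ℝ, b ≤ A.mulVec x) := by
  classical
  have hT : ∀ S : (Fin m × Fin n) ⊕ Fin m → SignType, ∃ l : List ((Fin m × Fin n) ⊕ Fin m → ℝ),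
      ∀ (A : Matrix (Fin m) (Fin n) ℝ) (b : Fin m → ℝ),
      (∀ i j, A i j = ((S (Sum.inl (i, j)) : SignType) : ℝ)) →
      ((∀ a ∈ l, ∑ j, a j * join A b j ≤ 0) ↔ ∃ x : Fin n → ℝ, b ≤ A.mulVec x) := by
    intro S
    obtain ⟨κ, hκ, Y, hY⟩ := exists_tests n (Fin m)
      (fun i j => ((S (Sum.inl (i, j)) : SignType) : ℝ))
    refine ⟨(Finset.univ : Finset κ).toList.map fun k => Sum.elim (fun _ => 0) (Y k),
      fun A b hA => ?_⟩
    have h1 : (∃ x : Fin n → ℝ, b ≤ A.mulVec x) ↔ ∃ x : Fin n → ℝ, ∀ i, b i ≤
        ∑ j, ((S (Sum.inl (i, j)) : SignType) : ℝ) * x j := by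
      refine exists_congr fun x => forall_congr' fun i => ?_
      unfold Matrix.mulVec dotProduct
      simp only [hA]
    rw [h1, hY]
    simp only [List.mem_map, Finset.mem_toList, Finset.mem_univ, true_and, forall_exists_index,
      forall_apply_eq_imp_iff]
    refine forall_congr' fun k => ?_
    have e : ∑ j, Sum.elim (fun _ => (0 : ℝ)) (Y k) j * join A b j = ∑ i, Y k i * b i := by
      rw [Fintype.sum_sum_type]
      simp [join]
    rw [e]
  choose l hl using hT
  refine ⟨readS (Finset.univ : Finset ((Fin m × Fin n) ⊕ Fin m)).toList (fun _ => 0)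
    (fun S => nonpos (l S)), fun A b hA => ?_⟩
  rw [readS_eval, nonpos_eval, hl]
  intro i j
  rw [if_pos (by simp)]
  simp only [join, Sum.elim_inl]
  rcases hA i j with h | h | h <;> rw [h] <;> simp

end Pool.Agent.R533.AT
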