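import Pool.Agent.R533.NG.Cls

set_option autoImplicit false

/-! Perturbations of systems with entries `0`, `1`, `-1` on the grid. -/

namespace Pool.Agent.R533.AT

/-- A sparse system on the square grid `A x ≥ b` which is almost a system with entries `0`, `1`,
`-1`. The inequalities and the unknowns can be placed at distinct points of the plane with integer
coordinates such that an unknown occurs in an inequality only if their points are neighbours (at
distance one); every row and every column of `A` has at most three nonzero entries; all entries of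
`A` are `0`, `1` or `-1` except for at most `(m + n) ^ (1 / k)` entries, at most one in every row and
at most one in every column, which are real numbers larger than `1` by at most `ε`; `b` is a unit
vector. -/
structure NearSystem (k : ℕ) (ε : ℝ) (m n : ℕ) (A : Matrix (Fin m) (Fin n) ℝ) (b : Fin m → ℝ) :
    Prop where
  /-- places of the inequalities and of the unknowns -/
  placed : ∃ (P : Fin m → ℤ × ℤ) (V : Fin n → ℤ × ℤ), P.Injective ∧ V.Injective ∧
    (∀ i j, P i ≠ V j) ∧
    ∀ i j, A i j ≠ 0 → |(P i).1 - (V j).1| + |(P i).2 - (V j).2| = 1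
  /-- at most three nonzero entries in a row -/
  row_le : ∀ i, {j | A i j ≠ 0}.ncard ≤ 3
  /-- at most three nonzero entries in a column -/
  col_le : ∀ j, {i | A i j ≠ 0}.ncard ≤ 3
  /-- the entries different from `0`, `1`, `-1` are slightly larger than `1` -/
  entries : ∀ i j, A i j = 0 ∨ A i j = 1 ∨ A i j = -1 ∨ (1 < A i j ∧ A i j ≤ 1 + ε)
  /-- there are few of them -/
  few : {p : Fin m × Fin n | A p.1 p.2 ≠ 0 ∧ A p.1 p.2 ≠ 1 ∧ A p.1 p.2 ≠ -1}.ncard ^ k ≤ m + n
  /-- there is at most one of them in a row -/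
  row_one : ∀ i, {j | A i j ≠ 0 ∧ A i j ≠ 1 ∧ A i j ≠ -1}.Subsingleton
  /-- there is at most one of them in a column -/
  col_one : ∀ j, {i | A i j ≠ 0 ∧ A i j ≠ 1 ∧ A i j ≠ -1}.Subsingleton
  /-- the right-hand side is a unit vector -/
  rhs : ∃ i₀, b = Pi.single i₀ 1

open Pool.Agent.R533.GU
open Pool.Agent.R533.NG hiding NearSystem

variable {m n : ℕ}

theorem near_system (k : ℕ) (ε : ℝ) (N : ℕ) (hN : size m n ^ (k + 1) ≤ N) (D : ℕ → ℕ → ℝ)
    (hD : ∀ R c, 1 ≤ D R c ∧ D R c ≤ 1 + ε) :
    NearSystem k ε N N (padM N (gmat D m n))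
      (padV N (grhs ℝ m n)) := by
  have hSN : size m n ≤ N := (size_le_bigN (m := m) (n := n) k).trans hN
  have hG := grid_system (m := m) (n := n) D (fun R c => zero_le_one.trans (hD R c).1)
  have hrow : ∀ (i j j' : Fin N),
      (padM N (gmat D m n) i j ≠ 0 ∧ padM N (gmat D m n) i j ≠ 1 ∧
        padM N (gmat D m n) i j ≠ -1) →
      (padM N (gmat D m n) i j' ≠ 0 ∧ padM N (gmat D m n) i j' ≠ 1 ∧
        padM N (gmat D m n) i j' ≠ -1) → j = j' := by
    intro i j j' h h'
    obtain ⟨a1, a2, a3⟩ := padM_cases _ i j h.1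
    obtain ⟨b1, b2, b3⟩ := padM_cases _ i j' h'.1
    rw [a3] at h
    rw [b3] at h'
    have := hG.row_one ⟨i, a1⟩ h h'
    exact Fin.ext (by simpa using congrArg Fin.val this)
  refine ⟨⟨fun i => plC n (size m n) i, fun j => plV n (size m n) j, ?_, ?_, ?_, ?_⟩,
    fun i => pad_ncard_row hSN _ i 3 hG.row_le, fun j => pad_ncard_col hSN _ j 3 hG.col_le,
    fun i j => ?_, ?_, fun i j hj j' hj' => hrow i j j' hj hj', fun j i hi i' hi' => ?_, ?_⟩
  · intro i i' h
    simp only [plC] at h
    by_cases h1 : (i : ℕ) < size m n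
    · by_cases h2 : (i' : ℕ) < size m n
      · rw [if_pos h1, if_pos h2] at h
        simp only [Prod.mk.injEq, Nat.cast_inj] at h
        have h3 : posC n (i : ℕ) = posC n (i' : ℕ) := Prod.ext h.1 h.2
        have h4 := posC_inj (m := m) (a₁ := ⟨i, h1⟩) (a₂ := ⟨i', h2⟩) h3
        exact Fin.ext (by simpa using congrArg Fin.val h4)
      · rw [if_pos h1, if_neg h2] at h
        simp only [Prod.mk.injEq] at h
        omega
    · by_cases h2 : (i' : ℕ) < size m n
      · rw [if_neg h1, if_pos h2] at h
        simp only [Prod.mk.injEq] at h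
        omega
      · rw [if_neg h1, if_neg h2] at h
        simp only [Prod.mk.injEq] at h
        exact Fin.ext (by omega)
  · intro i i' h
    simp only [plV] at h
    by_cases h1 : (i : ℕ) < size m n
    · by_cases h2 : (i' : ℕ) < size m n
      · rw [if_pos h1, if_pos h2] at h
        simp only [Prod.mk.injEq, Nat.cast_inj] at h
        have h3 : posV n (i : ℕ) = posV n (i' : ℕ) := Prod.ext h.1 h.2
        have h4 := posV_inj (m := m) (a₁ := ⟨i, h1⟩) (a₂ := ⟨i', h2⟩) h3
        exact Fin.ext (by simpa using congrArg Fin.val h4)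
      · rw [if_pos h1, if_neg h2] at h
        simp only [Prod.mk.injEq] at h
        omega
    · by_cases h2 : (i' : ℕ) < size m n
      · rw [if_neg h1, if_pos h2] at h
        simp only [Prod.mk.injEq] at h
        omega
      · rw [if_neg h1, if_neg h2] at h
        simp only [Prod.mk.injEq] at h
        exact Fin.ext (by omega)
  · intro i j h
    simp only [plC, plV] at h
    by_cases h1 : (i : ℕ) < size m n
    · by_cases h2 : (j : ℕ) < size m n
      · rw [if_pos h1, if_pos h2] at h
        simp only [Prod.mk.injEq, Nat.cast_inj] at h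
        have h3 := posC_even n i
        have h4 := posV_odd n j
        omega
      · rw [if_pos h1, if_neg h2] at h
        simp only [Prod.mk.injEq] at h
        omega
    · by_cases h2 : (j : ℕ) < size m n
      · rw [if_neg h1, if_pos h2] at h
        simp only [Prod.mk.injEq] at h
        omega
      · rw [if_neg h1, if_neg h2] at h
        simp only [Prod.mk.injEq] at h
        omega
  · intro i j h
    obtain ⟨h1, h2, h3⟩ := padM_cases _ i j h
    rw [h3] at h
    simp only [plC, plV]
    rw [if_pos h1, if_pos h2]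
    simp only
    rcases ent_cases D ⟨i, h1⟩ ⟨j, h2⟩ h with ⟨g1, g0, _⟩ | ⟨g1, _⟩ | ⟨g1, g0, _⟩ | ⟨g1, _⟩
    · simp only at g1 g0
      rw [g1]
      simp only
      rw [Nat.cast_sub g0]
      norm_num
    · simp only at g1
      rw [g1]
      simp only
      push_cast
      rw [show ((posC n i).1 : ℤ) - ((posC n i).1 + 1) = -1 by ring]
      norm_num
    · simp only at g1 g0
      rw [g1]
      simp only
      rw [Nat.cast_sub g0]
      norm_num
    · simp only at g1
      rw [g1]
      simp only
      push_cast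
      rw [show ((posC n i).2 : ℤ) - ((posC n i).2 + 1) = -1 by ring]
      norm_num
  · by_cases h0 : padM N (gmat D m n) i j = 0
    · exact Or.inl h0
    by_cases h1 : padM N (gmat D m n) i j = 1
    · exact Or.inr (Or.inl h1)
    by_cases h2 : padM N (gmat D m n) i j = -1
    · exact Or.inr (Or.inr (Or.inl h2))
    right; right; right
    obtain ⟨a1, a2, a3⟩ := padM_cases _ i j h0
    rw [a3] at h0 h1 h2 ⊢
    have h3 := (ent_three D ⟨i, a1⟩ ⟨j, a2⟩ h0 h1 h2).2.2
    rw [h3] at h1 ⊢
    exact ⟨lt_of_le_of_ne (hD _ _).1 (Ne.symm h1), (hD _ _).2⟩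
  · have h1 : {p : Fin N × Fin N |
        padM N (gmat D m n) p.1 p.2 ≠ 0 ∧ padM N (gmat D m n) p.1 p.2 ≠ 1 ∧
        padM N (gmat D m n) p.1 p.2 ≠ -1}.ncard ≤ size m n := by
      have h2 : (Fin.castLE hSN '' (Set.univ : Set (Fin (size m n)))).ncard ≤ size m n := by
        refine (Set.ncard_image_le (Set.toFinite _)).trans ?_
        rw [Set.ncard_univ, Nat.card_eq_fintype_card, Fintype.card_fin]
      refine le_trans (Set.ncard_le_ncard_of_injOn (fun p => p.1) ?_ ?_ (Set.toFinite _)) h2
      · intro p hp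
        obtain ⟨a1, -, -⟩ := padM_cases _ p.1 p.2 hp.1
        exact ⟨⟨p.1, a1⟩, Set.mem_univ _, Fin.ext rfl⟩
      · rintro ⟨i, j⟩ hp ⟨i', j'⟩ hp' h
        simp only at h
        subst h
        rw [hrow i j j' hp hp']
    calc _ ≤ size m n ^ k := Nat.pow_le_pow_left h1 k
      _ ≤ size m n ^ (k + 1) := Nat.pow_le_pow_right size_pos (by omega)
      _ ≤ _ := by omega
  · obtain ⟨a1, a2, a3⟩ := padM_cases _ i j hi.1
    obtain ⟨b1, b2, b3⟩ := padM_cases _ i' j hi'.1
    simp only [Set.mem_ofPred_eq] at hi hi'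
    rw [a3] at hi
    rw [b3] at hi'
    have := hG.col_one ⟨j, a2⟩ hi hi'
    exact Fin.ext (by simpa using congrArg Fin.val this)
  · refine ⟨⟨top n, top_lt.trans_le hSN⟩, ?_⟩
    funext i
    simp only [padV, grhs, Pi.single_apply]
    by_cases h : (i : ℕ) = top n
    · rw [dif_pos (by rw [h]; exact top_lt), if_pos h, if_pos (Fin.ext h)]
    · rw [if_neg (fun e : i = ⟨top n, top_lt.trans_le hSN⟩ => h (by rw [e]))]
      split_ifs <;> rfl


end Pool.Agent.R533.AT
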