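import Pool.Agent.R533.AT.Pull
import Pool.Agent.R533.AT.Near

set_option autoImplicit false

/-! Trees with shallow analytic tests fail on tiny perturbations. -/

namespace Pool.Agent.R533.AT

open Pool.Agent.Y531.San Pool.Agent.R533.GU
open Pool.Agent.R533.NG hiding NearSystem

/-! ### The systems -/

section sys

variable {n : ℕ}

/-- The matrix of a system. -/
def sysA (z : Fin (n + 1) × Fin (n + 1) → ℝ) : Matrix (Fin (n + 1)) (Fin n) ℝ := fun i j =>
  z (i, j.castSucc)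

/-- The right-hand side of a system. -/
def sysb (z : Fin (n + 1) × Fin (n + 1) → ℝ) : Fin (n + 1) → ℝ := fun i => z (i, Fin.last n)

/-- The data. -/
noncomputable def dd (θ M : ℝ) (z : Fin (n + 1) × Fin (n + 1) → ℝ) (R c : ℕ) : ℝ :=
  if c % 2 = 1 then 1 + θ * (M + ext (sysA z) (sysb z) (R - 1) ((c - 1) / 2)) else 1 + θ * M

theorem feasible_iff (z : Fin (n + 1) × Fin (n + 1) → ℝ) :
    Feasible z ↔ ∃ x : Fin n → ℝ, sysb z ≤ (sysA z).mulVec x :=
  Iff.rfl

theorem ext_le (z : Fin (n + 1) × Fin (n + 1) → ℝ) (M : ℝ) (hM : 0 ≤ M) (hz : ∀ l, |z l| ≤ M)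
    (i j : ℕ) : |ext (sysA z) (sysb z) i j| ≤ M := by
  unfold ext
  split_ifs
  · exact hz _
  · rw [abs_neg]; exact hz _
  · rw [abs_zero]; exact hM
  · rw [abs_zero]; exact hM

theorem dd_close (θ M : ℝ) (hθ : 0 ≤ θ) (hM : 0 ≤ M) (z : Fin (n + 1) × Fin (n + 1) → ℝ)
    (hz : ∀ l, |z l| ≤ M) (R c : ℕ) : 1 ≤ dd θ M z R c ∧ dd θ M z R c ≤ 1 + θ * (2 * M) := by
  have h := abs_le.mp (ext_le z M hM hz (R - 1) ((c - 1) / 2))
  unfold dd
  split_ifs
  · have h1 : 0 ≤ θ * (M + ext (sysA z) (sysb z) (R - 1) ((c - 1) / 2)) :=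
      mul_nonneg hθ (by linarith)
    have h2 : θ * (M + ext (sysA z) (sysb z) (R - 1) ((c - 1) / 2)) ≤ θ * (2 * M) :=
      mul_le_mul_of_nonneg_left (by linarith) hθ
    constructor <;> linarith
  · have h1 := mul_nonneg hθ hM
    constructor
    · linarith
    · nlinarith

theorem dd_sub (θ M : ℝ) (z : Fin (n + 1) × Fin (n + 1) → ℝ) (i j : ℕ) :
    dd θ M z (i + 1) (2 * j + 1) - dd θ M z (i + 1) (2 * j + 2) =
      θ * ext (sysA z) (sysb z) i j := by
  unfold dd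
  rw [if_pos (by omega), if_neg (by omega), Nat.add_sub_cancel,
    show (2 * j + 1 - 1) / 2 = j by omega]
  ring

/-- The system on the grid with the data `D` is solvable iff `A x ≥ b` is. -/
theorem gen_iff {m n : ℕ} (θ : ℝ) (hθ : 0 < θ) (A : Matrix (Fin m) (Fin n) ℝ) (b : Fin m → ℝ)
    (D : ℕ → ℕ → ℝ) (hD : ∀ R c, 0 ≤ D R c)
    (hs : ∀ i j, D (i + 1) (2 * j + 1) - D (i + 1) (2 * j + 2) = θ * ext A b i j) :
    (∃ z : Fin (size m n) → ℝ, grhs ℝ m n ≤ (gmat D m n).mulVec z) ↔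
      ∃ x : Fin n → ℝ, b ≤ A.mulVec x := by
  have key : ∀ (i : ℕ) (h : ℕ → ℝ), (0 ≤ ∑ j ∈ Finset.range (n + 1),
      (D (i + 1) (2 * j + 1) - D (i + 1) (2 * j + 2)) * h j) ↔
      0 ≤ ∑ j ∈ Finset.range (n + 1), ext A b i j * h j := by
    intro i h
    have e : ∑ j ∈ Finset.range (n + 1),
        (D (i + 1) (2 * j + 1) - D (i + 1) (2 * j + 2)) * h j =
        θ * ∑ j ∈ Finset.range (n + 1), ext A b i j * h j := by
      rw [Finset.mul_sum]
      exact Finset.sum_congr rfl fun j _ => by rw [hs]; ring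
    rw [e]
    exact mul_nonneg_iff_of_pos_left hθ
  constructor
  · rintro ⟨z, hz⟩
    obtain ⟨h, hn, hs⟩ := back_gen D hD z hz
    refine ⟨fun j => h j / h n, fun i => ?_⟩
    have h1 := (key i h).mp (hs i i.2)
    rw [ext_sum] at h1
    have hp : 0 < h n := by linarith
    have h2 : A.mulVec (fun j : Fin n => h j / h n) i = (∑ j : Fin n, A i j * h j) / h n := by
      unfold Matrix.mulVec dotProduct
      rw [Finset.sum_div]
      exact Finset.sum_congr rfl fun j _ => by ring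
    rw [h2, le_div_iff₀ hp]
    linarith
  · rintro ⟨x, hx⟩
    refine forth_gen D (fun j => if h : j < n then x ⟨j, h⟩ else 1) ?_ ?_
    · simp
    · intro i hi
      rw [key]
      have h1 := ext_sum A b ⟨i, hi⟩ (fun j => if h : j < n then x ⟨j, h⟩ else 1)
      have h2 := hx ⟨i, hi⟩
      simp only at h1
      rw [h1]
      simp only [Fin.is_lt, dite_true, Fin.eta, lt_irrefl, dite_false, mul_one]
      unfold Matrix.mulVec dotProduct at h2
      linarith

end sys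

/-! ### Affine functions -/

/-- The function is affine. -/
def IsAff {σ' : Type} [Fintype σ'] (f : (σ' → ℝ) → ℝ) : Prop :=
  ∃ (a : ℝ) (B : σ' → ℝ), ∀ z, f z = a + ∑ l, B l * z l

namespace IsAff

variable {σ' : Type} [Fintype σ']

theorem const (a : ℝ) : IsAff (fun _ : σ' → ℝ => a) := ⟨a, 0, fun z => by simp⟩

theorem coord (l : σ') : IsAff (fun z : σ' → ℝ => z l) := by
  classical
  refine ⟨0, Pi.single l 1, fun z => ?_⟩
  rw [Finset.sum_eq_single l (fun i _ hi => by rw [Pi.single_eq_of_ne hi, zero_mul])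
    (fun h => absurd (Finset.mem_univ _) h), Pi.single_eq_same, one_mul, zero_add]

theorem add {f g : (σ' → ℝ) → ℝ} (hf : IsAff f) (hg : IsAff g) : IsAff (fun z => f z + g z) := by
  obtain ⟨a, B, h⟩ := hf
  obtain ⟨a', B', h'⟩ := hg
  refine ⟨a + a', B + B', fun z => ?_⟩
  show f z + g z = _
  rw [h, h']
  simp only [Pi.add_apply, add_mul, Finset.sum_add_distrib]
  ring

theorem smul (r : ℝ) {f : (σ' → ℝ) → ℝ} (hf : IsAff f) : IsAff (fun z => r * f z) := by
  obtain ⟨a, B, h⟩ := hf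
  refine ⟨r * a, fun l => r * B l, fun z => ?_⟩
  show r * f z = _
  rw [h, mul_add, Finset.mul_sum]
  simp only [mul_assoc]

theorem neg {f : (σ' → ℝ) → ℝ} (hf : IsAff f) : IsAff (fun z => -f z) := by
  have h := hf.smul (-1)
  simpa using h

end IsAff

theorem dd_aff {n : ℕ} (θ M : ℝ) (R c : ℕ) :
    IsAff (fun z : Fin (n + 1) × Fin (n + 1) → ℝ => dd θ M z R c) := by
  have h1 : ∀ i j, IsAff (fun z : Fin (n + 1) × Fin (n + 1) → ℝ =>
      ext (sysA z) (sysb z) i j) := by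
    intro i j
    unfold ext
    split_ifs
    · exact IsAff.coord _
    · exact (IsAff.coord _).neg
    · exact IsAff.const 0
    · exact IsAff.const 0
  unfold dd
  split_ifs
  · exact (IsAff.const 1).add (((IsAff.const M).add (h1 _ _)).smul θ)
  · exact IsAff.const _

/-- The instance, as a point. -/
noncomputable def pt {n : ℕ} (N : ℕ) (θ M : ℝ) (z : Fin (n + 1) × Fin (n + 1) → ℝ) :
    (Fin N × Fin N) ⊕ Fin N → ℝ :=
  join (padM N (gmat (dd θ M z) (n + 1) n)) (padV N (grhs ℝ (n + 1) n))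

theorem pt_aff {n : ℕ} (N : ℕ) (θ M : ℝ) (p : (Fin N × Fin N) ⊕ Fin N) :
    IsAff (fun z : Fin (n + 1) × Fin (n + 1) → ℝ => pt N θ M z p) := by
  rcases p with ⟨i, j⟩ | i
  · unfold pt join
    simp only [Sum.elim_inl]
    unfold padM
    split_ifs
    · unfold gmat val
      split_ifs
      · exact IsAff.const 1
      · exact IsAff.const (-1)
      · exact dd_aff θ M _ _
      · exact IsAff.const 0
    · exact IsAff.const 0
  · exact IsAff.const _

theorem size_bound (n : ℕ) (hn : 1 ≤ n) : size (n + 2) (n + 1) ≤ (n + 1) ^ 11 := by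
  have h0 : 2 ≤ n + 1 := by omega
  have h1 : 2 ^ 9 ≤ (n + 1) ^ 9 := Nat.pow_le_pow_left h0 9
  unfold size wid
  calc 6 * (n + 2 + 2) * (6 * (n + 1 + 2)) = 36 * ((n + 4) * (n + 3)) := by ring
    _ ≤ 36 * ((4 * (n + 1)) * (3 * (n + 1))) :=
        Nat.mul_le_mul_left _ (Nat.mul_le_mul (by omega) (by omega))
    _ = 432 * (n + 1) ^ 2 := by ring
    _ ≤ (n + 1) ^ 9 * (n + 1) ^ 2 := Nat.mul_le_mul_right _ (by omega)
    _ = (n + 1) ^ 11 := by ring

/-- The dimension of the general system. -/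
theorem exists_dim (k n₀ : ℕ) : ∃ N₀ : ℕ, ∀ N, N₀ ≤ N → ∃ n, n₀ ≤ n ∧ 1 ≤ n ∧
    size (n + 1) n ^ (k + 1) ≤ N ∧ N ≤ (n + 1) ^ (11 * (k + 1)) := by
  classical
  have hself : ∀ n, n < size (n + 1) n ^ (k + 1) := by
    intro n
    have h1 : n < size (n + 1) n := by
      unfold size wid
      nlinarith
    calc n < size (n + 1) n := h1
      _ = size (n + 1) n ^ 1 := (pow_one _).symm
      _ ≤ _ := Nat.pow_le_pow_right size_pos (by omega)
  refine ⟨size (n₀ + 2) (n₀ + 1) ^ (k + 1), fun N hN => ?_⟩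
  set P : ℕ → Prop := fun n => size (n + 1) n ^ (k + 1) ≤ N with hP
  have h1 : P (n₀ + 1) := hN
  have h2 : n₀ + 1 ≤ N := ((hself (n₀ + 1)).trans_le h1).le
  set n := Nat.findGreatest P N with hn
  have h3 : P n := Nat.findGreatest_spec h2 h1
  have h4 : n₀ + 1 ≤ n := Nat.le_findGreatest h2 h1
  have h5 : n + 1 ≤ N := (hself n).trans_le h3
  have h6 : ¬ P (n + 1) := Nat.findGreatest_is_greatest (Nat.lt_succ_self n) h5
  refine ⟨n, by omega, by omega, h3, ?_⟩
  have h7 : N < size (n + 1 + 1) (n + 1) ^ (k + 1) := not_le.mp h6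
  calc N ≤ size (n + 2) (n + 1) ^ (k + 1) := h7.le
    _ ≤ ((n + 1) ^ 11) ^ (k + 1) := Nat.pow_le_pow_left (size_bound n (by omega)) _
    _ = (n + 1) ^ (11 * (k + 1)) := (pow_mul _ _ _).symm

/-- **Trees with shallow analytic tests fail on tiny perturbations.** -/
theorem low (c Δ k : ℕ) : ∃ q N₀ : ℕ, ∀ N, N₀ ≤ N → ∀ ε : ℝ, 0 < ε →
    ∀ t : STree ((Fin N × Fin N) ⊕ Fin N) N c Δ q,
    (∀ (A : Matrix (Fin N) (Fin N) ℝ) (b : Fin N → ℝ), NearSystem k ε N N A b →
      ∃ ans, t.Answers (join A b) ans) →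
    ∃ (A : Matrix (Fin N) (Fin N) ℝ) (b : Fin N → ℝ), NearSystem k ε N N A b ∧
      ∃ ans, t.Answers (join A b) ans ∧ ¬ (ans = true ↔ ∃ x : Fin N → ℝ, b ≤ A.mulVec x) := by
  classical
  obtain ⟨q', n₀, H⟩ := tree_wrong (11 * (k + 1) * c) Δ
  obtain ⟨N₀, hN₀⟩ := exists_dim k n₀
  refine ⟨11 * (k + 1) * q', N₀, fun N hN ε hε t ht => ?_⟩
  obtain ⟨n, hn₀, hn1, hnN, hNn⟩ := hN₀ N hN
  have hSN : size (n + 1) n ≤ N := by
    calc size (n + 1) n = size (n + 1) n ^ 1 := (pow_one _).symm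
      _ ≤ size (n + 1) n ^ (k + 1) := Nat.pow_le_pow_right size_pos (by omega)
      _ ≤ N := hnN
  obtain ⟨x₀, hx₀⟩ := exists_boundary n
  set M : ℝ := ‖x₀‖ + 1 with hM
  have hM0 : 0 < M := by positivity
  set θ : ℝ := ε / (2 * M) with hθ
  have hθ0 : 0 < θ := by positivity
  have hθM : θ * (2 * M) = ε := by
    rw [hθ]
    field_simp
  choose a B hpt using fun p => pt_aff (n := n) N θ M p
  have hφ : ∀ z : Fin (n + 1) × Fin (n + 1) → ℝ, aff a B z = pt N θ M z := by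
    intro z
    funext p
    exact (hpt p z).symm
  have hsmall : ∀ z ∈ Metric.ball (0 : Fin (n + 1) × Fin (n + 1) → ℝ) M, ∀ l, |z l| ≤ M := by
    intro z hz l
    have h1 : ‖z l‖ ≤ ‖z‖ := norm_le_pi_norm z l
    rw [Real.norm_eq_abs] at h1
    rw [mem_ball_zero_iff] at hz
    linarith
  have hnear : ∀ z ∈ Metric.ball (0 : Fin (n + 1) × Fin (n + 1) → ℝ) M,
      NearSystem k ε N N (padM N (gmat (dd θ M z) (n + 1) n)) (padV N (grhs ℝ (n + 1) n)) := by
    intro z hz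
    refine near_system k ε N hnN (dd θ M z) fun R c => ?_
    have h1 := dd_close θ M hθ0.le hM0.le z (hsmall z hz) R c
    rw [hθM] at h1
    exact h1
  have hK : 11 * (k + 1) ≠ 0 := by omega
  obtain ⟨V, hVU, -, ⟨z, hz⟩, hw⟩ := H n hn₀ (pullTree a B hK hNn t) (Metric.ball 0 M)
    Metric.isOpen_ball (fun z hz => by
      obtain ⟨ans, h⟩ := ht _ _ (hnear z hz)
      refine ⟨ans, (pullTree_answers a B hK hNn t z ans).mpr ?_⟩
      rw [hφ]
      exact h)
    ⟨x₀, by rw [mem_ball_zero_iff, hM]; linarith, hx₀⟩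
  obtain ⟨ans, h1, h2⟩ := hw z hz
  refine ⟨_, _, hnear z (hVU hz), ans, ?_, ?_⟩
  · have h3 := (pullTree_answers a B hK hNn t z ans).mp h1
    rw [hφ] at h3
    exact h3
  · rw [pad_iff hSN, gen_iff θ hθ0 (sysA z) (sysb z) (dd θ M z)
      (fun R c => zero_le_one.trans (dd_close θ M hθ0.le hM0.le z (hsmall z (hVU hz)) R c).1)
      (dd_sub θ M z), ← feasible_iff]
    exact h2

end Pool.Agent.R533.AT
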