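import Pool.Agent.Y531.San.LP
import Pool.Agent.R533.AT.Lin

set_option autoImplicit false

/-!
# Decision trees with tests which are given by networks of analytic functions

The networks (`Net`) are the ones of the starting result `AnalyticTests`:
`Pool/Agent/Y531/San/Model.lean`; `PolyLimit` is defined in `Pool/Agent/Y531/Hlim/Easy.lean`.
-/

namespace Pool.Agent.R533.AT

open Topology Filter Pool.Agent.Y531 Pool.Agent.Y531.San Pool.Agent.Y531.Hlim
open Pool.Agent.Y531.Smooth (Comb)

/-- A test: a question about the input (`outcome`), with a network of depth `Δ` with `s ≤ N ^ c`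
gates, which are analytic functions of `m` arguments, `m ^ q ≤ N`, on open sets, or polynomials with
the property `PolyLimit N c Δ q`. The outcome is locally constant on the set of the inputs for which
the output of the network is zero, and on the set of the inputs for which it is not zero. -/
structure STest (σ : Type) [Fintype σ] (N c Δ q : ℕ) where
  /-- the number of the gates -/
  s : ℕ
  /-- the number of the arguments of the analytic functions -/
  m : ℕ
  size : s ≤ N ^ c
  arity : m ^ q ≤ N
  /-- the network -/
  net : Net σ s Δ m {p | PolyLimit N c Δ q p}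
  /-- the outcome of the test -/
  outcome : (σ → ℝ) → ℝ
  stable : ∀ (x : σ → ℝ) (y : ℝ), net.Outputs x y →
    ∀ᶠ x' in 𝓝 x, ∀ y' : ℝ, net.Outputs x' y' → (y = 0 ↔ y' = 0) → outcome x' = outcome x

/-- A decision tree: `next` tells how the computation continues after a test. -/
inductive STree (σ : Type) [Fintype σ] (N c Δ q : ℕ) : Type
  | leaf (answer : Bool) : STree σ N c Δ q
  | node (t : STest σ N c Δ q) (next : ℝ → STree σ N c Δ q) : STree σ N c Δ q

/-- The tree gives the answer `b` for the input `x`; all operations used for `x` are defined. -/
def STree.Answers {σ : Type} [Fintype σ] {N c Δ q : ℕ} :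
    STree σ N c Δ q → (σ → ℝ) → Bool → Prop
  | leaf b', _, b => b = b'
  | node t next, x, b => (∃ y, t.net.Outputs x y) ∧ (next (t.outcome x)).Answers x b

open Classical in
/-- The sign of the output of a network is a test. -/
noncomputable def STest.sign {σ : Type} [Fintype σ] {N c Δ q s m : ℕ} (size : s ≤ N ^ c)
    (arity : m ^ q ≤ N) (P : Net σ s Δ m {p | PolyLimit N c Δ q p}) : STest σ N c Δ q where
  s := s
  m := m
  size := size
  arity := arity
  net := P
  outcome x := if h : ∃ y, P.Outputs x y then ((SignType.sign h.choose : SignType) : ℝ) else 0
  stable := by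
    intro x y hy
    have hval : ∀ z w, P.Outputs z w →
        (if h : ∃ y, P.Outputs z y then ((SignType.sign h.choose : SignType) : ℝ) else 0) =
          ((SignType.sign w : SignType) : ℝ) := by
      intro z w hw
      have h : ∃ y, P.Outputs z y := ⟨_, hw⟩
      have h1 : h.choose = w := h.choose_spec.unique hw
      rw [dif_pos h, h1]
    obtain ⟨g, hg1, hg2⟩ := P.exists_rounds 0 hy
    set G : (σ → ℝ) → ℝ := fun z => P.out.val z (Snet.rounds g (Δ + 1) z) with hG
    have hgx : G x = y := hg1.self_of_nhds.unique hy
    have hc : ContinuousAt G x := hg2.continuousAt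
    by_cases h0 : y = 0
    · refine Eventually.of_forall fun z y' hz hyy => ?_
      rw [hval z y' hz, hval x y hy, h0, hyy.mp h0]
    · have hs : ∀ᶠ z in 𝓝 x, SignType.sign (G z) = SignType.sign y := by
        rcases lt_or_gt_of_ne h0 with h | h
        · filter_upwards [hc.eventually_lt continuousAt_const
            (show G x < 0 by rw [hgx]; exact h)] with z hz
          rw [sign_neg hz, sign_neg h]
        · filter_upwards [continuousAt_const.eventually_lt hc
            (show 0 < G x by rw [hgx]; exact h)] with z hz
          rw [sign_pos hz, sign_pos h]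
      filter_upwards [hs, hg1] with z hz hz1 y' hy' _
      rw [hval z y' hy', hval x y hy, ← hz, ← hz1.unique hy']

end Pool.Agent.R533.AT
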