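import Pool.Agent.R533.AT.Model

set_option autoImplicit false

/-! Substitution of affine functions in decision trees. -/

namespace Pool.Agent.R533.AT

open Pool.Agent.Y531.San Pool.Agent.Y531.Hlim Pool.Agent.Y531.Mul
open Pool.Agent.Y531.Smooth (Comb)

/-- Change of the bounds. -/
theorem polyLimit_mono {s N n' K c Δ q : ℕ} (hK : K ≠ 0) (hN : N ≤ n' ^ K)
    {f : MvPolynomial (Fin s) ℝ} (h : PolyLimit N c Δ (K * q) f) :
    PolyLimit n' (K * c) Δ q f := by
  obtain ⟨g, hg, s', m, C, R, P, Q, h1, h2, h3⟩ := h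
  refine ⟨g, hg, s', m, C, R, P, Q, ?_, ?_, h3⟩
  · calc s' ≤ N ^ c := h1
      _ ≤ (n' ^ K) ^ c := Nat.pow_le_pow_left hN c
      _ = n' ^ (K * c) := (pow_mul _ _ _).symm
  · have h4 : (m ^ q) ^ K ≤ n' ^ K := by
      rw [← pow_mul, mul_comm q K]
      exact h2.trans hN
    exact (Nat.pow_le_pow_iff_left hK).mp h4

section pull

variable {σ σ' : Type} [Fintype σ] [Fintype σ']

/-- The affine map with the constants `a` and the coefficients `B`. -/
noncomputable def aff (a : σ → ℝ) (B : σ → σ' → ℝ) (z : σ' → ℝ) : σ → ℝ := fun p =>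
  a p + ∑ l, B p l * z l

variable (a : σ → ℝ) (B : σ → σ' → ℝ)

/-- Substitution in a linear combination. -/
noncomputable def pullComb {s : ℕ} (C : Comb σ s) : Comb σ' s :=
  ⟨C.const + ∑ p, C.input p * a p, fun l => ∑ p, C.input p * B p l, C.gate⟩

theorem pullComb_val {s : ℕ} (C : Comb σ s) (z : σ' → ℝ) (v : Fin s → ℝ) :
    (pullComb a B C).val z v = C.val (aff a B z) v := by
  unfold Comb.val pullComb aff
  have e : ∑ j, C.input j * (a j + ∑ l, B j l * z l) =
      ∑ j, C.input j * a j + ∑ l, (∑ p, C.input p * B p l) * z l := by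
    simp only [mul_add, Finset.sum_add_distrib, Finset.mul_sum, Finset.sum_mul]
    congr 1
    rw [Finset.sum_comm]
    exact Finset.sum_congr rfl fun _ _ => Finset.sum_congr rfl fun _ _ => by ring
  rw [e]
  ring

variable {s m Δ : ℕ} {cls cls' : Set (MvPolynomial (Fin s) ℝ)}

/-- Substitution in an operation. -/
noncomputable def pullOp (h : ∀ p ∈ cls, p ∈ cls') : Op σ s m cls → Op σ' s m cls'
  | Op.fn D φ o an arg => Op.fn D φ o an fun j => pullComb a B (arg j)
  | Op.poly p mem arg => Op.poly p (h p mem) fun j => pullComb a B (arg j)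

theorem pullOp_gives (h : ∀ p ∈ cls, p ∈ cls') (o : Op σ s m cls) (z : σ' → ℝ)
    (v : Fin s → ℝ) (y : ℝ) : (pullOp a B h o).Gives z v y ↔ o.Gives (aff a B z) v y := by
  cases o with
  | fn D φ o an arg => simp only [pullOp, Op.Gives, pullComb_val]
  | poly p mem arg => simp only [pullOp, Op.Gives, pullComb_val]

theorem pullOp_reads (h : ∀ p ∈ cls, p ∈ cls') (o : Op σ s m cls) (i : Fin s) :
    (pullOp a B h o).Reads i ↔ o.Reads i := by
  cases o <;> rfl

/-- Substitution in a network. -/
noncomputable def pullNet (h : ∀ p ∈ cls, p ∈ cls') (P : Net σ s Δ m cls) :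
    Net σ' s Δ m cls' where
  op i := pullOp a B h (P.op i)
  depth := P.depth
  depth_le := P.depth_le
  reads i i' hr := P.reads i i' ((pullOp_reads a B h _ _).mp hr)
  out := pullComb a B P.out

theorem pullNet_outputs (h : ∀ p ∈ cls, p ∈ cls') (P : Net σ s Δ m cls) (z : σ' → ℝ) (y : ℝ) :
    (pullNet a B h P).Outputs z y ↔ P.Outputs (aff a B z) y := by
  unfold Net.Outputs
  simp only [pullNet, pullOp_gives, pullComb_val]

end pull

section tree

open Topology Filter

variable {σ σ' : Type} [Fintype σ] [Fintype σ'] (a : σ → ℝ) (B : σ → σ' → ℝ)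
variable {N n' K c Δ q : ℕ}

theorem continuous_aff : Continuous (aff a B) := by
  unfold aff
  fun_prop

/-- Substitution in a test. -/
noncomputable def pullTest (hK : K ≠ 0) (hN : N ≤ n' ^ K) (t : STest σ N c Δ (K * q)) :
    Test σ' n' (K * c) Δ q where
  s := t.s
  m := t.m
  size := by
    calc t.s ≤ N ^ c := t.size
      _ ≤ (n' ^ K) ^ c := Nat.pow_le_pow_left hN c
      _ = n' ^ (K * c) := (pow_mul _ _ _).symm
  arity := by
    have h4 : (t.m ^ q) ^ K ≤ n' ^ K := by
      rw [← pow_mul, mul_comm q K]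
      exact t.arity.trans hN
    exact (Nat.pow_le_pow_iff_left hK).mp h4
  net := pullNet a B (fun _ hp => polyLimit_mono hK hN hp) t.net
  outcome z := t.outcome (aff a B z)
  stable := by
    intro x F hF hx
    have hF' : ∀ᶠ z in 𝓝 x, t.net.Outputs (aff a B z) (F z) := by
      filter_upwards [hF] with z hz
      exact (pullNet_outputs a B _ _ _ _).mp hz
    have h1 := t.stable (aff a B x) (F x) hF'.self_of_nhds
    have h2 := (continuous_aff a B).continuousAt.eventually h1
    have hFc : ContinuousAt F x := (Net.analyticAt _ hF).continuousAt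
    have h3 : ∀ᶠ z in 𝓝 x, (F x = 0 ↔ F z = 0) := by
      rcases hx with hx | hx
      · filter_upwards [hFc.eventually_ne hx] with z hz
        exact ⟨fun h => absurd h hx, fun h => absurd h hz⟩
      · have h4 := hx.self_of_nhds
        filter_upwards [hx] with z hz
        exact ⟨fun _ => hz, fun _ => h4⟩
    filter_upwards [hF', h2, h3] with z hz1 hz2 hz3
    exact hz2 _ hz1 hz3

/-- Substitution in a tree. -/
noncomputable def pullTree (hK : K ≠ 0) (hN : N ≤ n' ^ K) :
    STree σ N c Δ (K * q) → Pool.Agent.Y531.San.Tree σ' n' (K * c) Δ q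
  | STree.leaf b => Pool.Agent.Y531.San.Tree.leaf b
  | STree.node t next => Pool.Agent.Y531.San.Tree.node (pullTest a B hK hN t)
      (fun r => pullTree hK hN (next r))

theorem pullTree_answers (hK : K ≠ 0) (hN : N ≤ n' ^ K) (t : STree σ N c Δ (K * q))
    (z : σ' → ℝ) (b : Bool) :
    (pullTree a B hK hN t).Answers z b ↔ t.Answers (aff a B z) b := by
  induction t with
  | leaf b' => rfl
  | node t next ih =>
    show (∃ y, (pullTest a B hK hN t).net.Outputs z y) ∧
      (pullTree a B hK hN (next (t.outcome (aff a B z)))).Answers z b ↔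
      (∃ y, t.net.Outputs (aff a B z) y) ∧ (next (t.outcome (aff a B z))).Answers (aff a B z) b
    rw [ih]
    exact and_congr_left fun _ => exists_congr fun y => pullNet_outputs a B _ _ _ _

end tree

end Pool.Agent.R533.AT
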